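import Pool.Agent.H43.BZ.Stm4

/-!
# Rescaling of solutions: the parts common to Boltzmann and Landau
-/

set_option autoImplicit false

open MeasureTheory Metric Set Filter Topology
open scoped RealInnerProductSpace ENNReal

namespace Pool.Agent.H339.BZ

open Pool.Agent.H43.BZ

lemma mem_Ico_div {R T t : ℝ} (hR : 0 < R) (ht : t ∈ Ico 0 (R * T)) : t / R ∈ Ico 0 T := by
  refine ⟨div_nonneg ht.1 hR.le, ?_⟩
  rw [div_lt_iff₀ hR, mul_comm]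
  exact ht.2

lemma mem_Ioo_div {R T t : ℝ} (hR : 0 < R) (ht : t ∈ Ioo 0 (R * T)) : t / R ∈ Ioo 0 T := by
  refine ⟨div_pos ht.1 hR, ?_⟩
  rw [div_lt_iff₀ hR, mul_comm]
  exact ht.2

variable {d : ℕ} {γ T R : ℝ} {f : ℝ → E d → E d → ℝ}

lemma scal_nonneg (hR : 0 < R) (h : ∀ t ∈ Ico 0 T, ∀ x v, 0 ≤ f t x v) :
    ∀ t ∈ Ico 0 (R * T), ∀ x v, 0 ≤ scal γ R f t x v := by
  intro t ht x v
  exact mul_nonneg (Real.rpow_nonneg hR.le _) (h _ (mem_Ico_div hR ht) _ _)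

lemma scal_cont (hR : 0 < R)
    (h : ContinuousOn (fun p : ℝ × E d × E d => f p.1 p.2.1 p.2.2) (Ico 0 T ×ˢ univ)) :
    ContinuousOn (fun p : ℝ × E d × E d => scal γ R f p.1 p.2.1 p.2.2) (Ico 0 (R * T) ×ˢ univ) := by
  have hm : ContinuousOn (fun p : ℝ × E d × E d => ((p.1 / R, (p.2.1, R • p.2.2)) : ℝ × E d × E d))
      (Ico 0 (R * T) ×ˢ univ) := by fun_prop
  have h2 := h.comp hm (fun p hp => ⟨mem_Ico_div hR hp.1, mem_univ _⟩)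
  exact continuousOn_const.mul h2

lemma scal_periodic (hR : 0 < R)
    (h : ∀ t ∈ Ico 0 T, ∀ x v, ∀ i, f t (x + EuclideanSpace.single i 1) v = f t x v) :
    ∀ t ∈ Ico 0 (R * T), ∀ x v, ∀ i,
      scal γ R f t (x + EuclideanSpace.single i 1) v = scal γ R f t x v := by
  intro t ht x v i
  simp only [scal]
  rw [h _ (mem_Ico_div hR ht)]

lemma one_add_norm_le (hR : 0 < R) (v : E d) : 1 + ‖v‖ ≤ (1 + R⁻¹) * (1 + ‖R • v‖) := by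
  rw [norm_smul, Real.norm_of_nonneg hR.le]
  have h1 : 0 ≤ ‖v‖ := norm_nonneg v
  have h2 : R⁻¹ * (R * ‖v‖) = ‖v‖ := by field_simp
  have h3 : 0 ≤ R⁻¹ := by positivity
  have h4 : 0 ≤ R * ‖v‖ := by positivity
  nlinarith

lemma pow_le' (hR : 0 < R) (q : ℕ) (v : E d) :
    (1 + ‖v‖) ^ q ≤ (1 + R⁻¹) ^ q * (1 + ‖R • v‖) ^ q := by
  rw [← mul_pow]
  exact pow_le_pow_left₀ (by positivity) (one_add_norm_le hR v) q

lemma scal_decay (hR : 0 < R) (h0 : ∀ t ∈ Ico 0 T, ∀ x v, 0 ≤ f t x v)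
    (h : ∀ T' ∈ Ico 0 T, ∀ q : ℕ, ∃ C : ℝ, ∀ t ∈ Icc 0 T', ∀ x v, (1 + ‖v‖) ^ q * f t x v ≤ C) :
    ∀ T' ∈ Ico 0 (R * T), ∀ q : ℕ, ∃ C : ℝ, ∀ t ∈ Icc 0 T', ∀ x v,
      (1 + ‖v‖) ^ q * scal γ R f t x v ≤ C := by
  intro T' hT' q
  obtain ⟨C, hC⟩ := h (T' / R) (mem_Ico_div hR hT') q
  refine ⟨R ^ ((d : ℝ) + γ - 1) * ((1 + R⁻¹) ^ q * C), fun t ht x v => ?_⟩
  have ht' : t / R ∈ Icc 0 (T' / R) :=
    ⟨div_nonneg ht.1 hR.le, div_le_div_of_nonneg_right ht.2 hR.le⟩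
  have h1 := hC _ ht' x (R • v)
  have h2 : 0 ≤ f (t / R) x (R • v) :=
    h0 _ ⟨ht'.1, lt_of_le_of_lt ht'.2 (mem_Ico_div hR hT').2⟩ _ _
  have h3 := pow_le' hR q v
  have h4 : 0 ≤ R ^ ((d : ℝ) + γ - 1) := Real.rpow_nonneg hR.le _
  simp only [scal]
  calc (1 + ‖v‖) ^ q * (R ^ ((d : ℝ) + γ - 1) * f (t / R) x (R • v))
      = R ^ ((d : ℝ) + γ - 1) * ((1 + ‖v‖) ^ q * f (t / R) x (R • v)) := by ring
    _ ≤ R ^ ((d : ℝ) + γ - 1) * (((1 + R⁻¹) ^ q * (1 + ‖R • v‖) ^ q) * f (t / R) x (R • v)) :=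
        mul_le_mul_of_nonneg_left (mul_le_mul_of_nonneg_right h3 h2) h4
    _ = R ^ ((d : ℝ) + γ - 1) * ((1 + R⁻¹) ^ q * ((1 + ‖R • v‖) ^ q * f (t / R) x (R • v))) := by
        ring
    _ ≤ R ^ ((d : ℝ) + γ - 1) * ((1 + R⁻¹) ^ q * C) :=
        mul_le_mul_of_nonneg_left (mul_le_mul_of_nonneg_left h1 (by positivity)) h4

/-- the scaling of space-time -/
noncomputable def LR (d : ℕ) (R : ℝ) : ℝ × E d →L[ℝ] ℝ × E d :=
  (R⁻¹ • ContinuousLinearMap.fst ℝ ℝ (E d)).prod (ContinuousLinearMap.snd ℝ ℝ (E d))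

lemma LR_apply (R : ℝ) (p : ℝ × E d) : LR d R p = (p.1 / R, p.2) := by
  simp [LR, div_eq_inv_mul]

lemma scal_hasFDerivAt (hR : 0 < R)
    (h : ∀ t ∈ Ioo 0 T, ∀ x v, DifferentiableAt ℝ (fun p : ℝ × E d => f p.1 p.2 v) (t, x))
    (t : ℝ) (ht : t ∈ Ioo 0 (R * T)) (x v : E d) :
    HasFDerivAt (fun p : ℝ × E d => scal γ R f p.1 p.2 v)
      (R ^ ((d : ℝ) + γ - 1) •
        (fderiv ℝ (fun p : ℝ × E d => f p.1 p.2 (R • v)) (t / R, x)).comp (LR d R)) (t, x) := by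
  have h1 := (h _ (mem_Ioo_div hR ht) x (R • v)).hasFDerivAt
  have h2 : HasFDerivAt (fun p : ℝ × E d => LR d R p) (LR d R) (t, x) := (LR d R).hasFDerivAt
  have h1' : HasFDerivAt (fun p : ℝ × E d => f p.1 p.2 (R • v))
      (fderiv ℝ (fun p : ℝ × E d => f p.1 p.2 (R • v)) (t / R, x)) (LR d R (t, x)) := by
    rw [LR_apply]
    exact h1
  have h3 := h1'.comp (t, x) h2
  have h4 := h3.const_smul (R ^ ((d : ℝ) + γ - 1))
  refine h4.congr_of_eventuallyEq (Eventually.of_forall fun p => ?_)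
  simp only [scal, Pi.smul_apply, Function.comp, LR_apply, smul_eq_mul]

lemma scal_diff (hR : 0 < R)
    (h : ∀ t ∈ Ioo 0 T, ∀ x v, DifferentiableAt ℝ (fun p : ℝ × E d => f p.1 p.2 v) (t, x)) :
    ∀ t ∈ Ioo 0 (R * T), ∀ x v,
      DifferentiableAt ℝ (fun p : ℝ × E d => scal γ R f p.1 p.2 v) (t, x) :=
  fun t ht x v => (scal_hasFDerivAt hR h t ht x v).differentiableAt

lemma scal_fderiv (hR : 0 < R)
    (h : ∀ t ∈ Ioo 0 T, ∀ x v, DifferentiableAt ℝ (fun p : ℝ × E d => f p.1 p.2 v) (t, x))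
    (t : ℝ) (ht : t ∈ Ioo 0 (R * T)) (x v : E d) :
    fderiv ℝ (fun p : ℝ × E d => scal γ R f p.1 p.2 v) (t, x) (1, v) =
      R ^ ((d : ℝ) + γ - 1) * R⁻¹ *
        fderiv ℝ (fun p : ℝ × E d => f p.1 p.2 (R • v)) (t / R, x) (1, R • v) := by
  rw [(scal_hasFDerivAt hR h t ht x v).fderiv]
  have h1 : LR d R (1, v) = R⁻¹ • ((1, R • v) : ℝ × E d) := by
    rw [LR_apply]
    refine Prod.ext ?_ ?_
    · simp
    · simp [smul_smul, hR.ne']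
  simp only [smul_apply, ContinuousLinearMap.comp_apply, h1, map_smul,
    smul_eq_mul]
  ring

end Pool.Agent.H339.BZ
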