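import Pool.Agent.H339.BZ.Com

/-!
# LSCAL: rescaling of solutions of the Landau equation
-/

set_option autoImplicit false

open MeasureTheory Metric Set Filter Topology
open scoped RealInnerProductSpace ENNReal

namespace Pool.Agent.H339.BZ

open Pool.Agent.H43.BZ

variable {d : ℕ}

lemma fderiv_const_mul_comp (A R : ℝ) (h : E d → ℝ) (v : E d) :
    fderiv ℝ (fun y => A * h (R • y)) v = (A * R) • fderiv ℝ h (R • v) := by
  have h1 : (fun y => A * h (R • y)) = A • (fun y => h (R • y)) := rfl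
  have h2 : fderiv ℝ (fun y => h (R • y)) v = R • fderiv ℝ h (R • v) := fderiv_comp_smul R
  rw [h1, fderiv_const_smul_field, Pi.smul_apply, h2, smul_smul]

lemma gradient_const_mul_comp (A R : ℝ) (h : E d → ℝ) (v : E d) :
    gradient (fun y => A * h (R • y)) v = (A * R) • gradient h (R • v) := by
  simp only [gradient, fderiv_const_mul_comp, map_smulₛₗ]
  rfl

lemma aL_smul_left {R : ℝ} (hR : 0 < R) (γ : ℝ) (z ξ : E d) :
    aL γ (R • z) ξ = (R ^ γ * R ^ 2) • aL γ z ξ := by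
  have h1 : (R * ‖z‖) ^ γ = R ^ γ * ‖z‖ ^ γ := Real.mul_rpow hR.le (norm_nonneg _)
  simp only [aL, norm_smul, Real.norm_of_nonneg hR.le, real_inner_smul_left, h1, smul_smul,
    smul_sub]
  congr 2 <;> ring

lemma aL_smul_right (γ c : ℝ) (z ξ : E d) : aL γ z (c • ξ) = c • aL γ z ξ := by
  simp only [aL, inner_smul_right, smul_smul, smul_sub]
  congr 2 <;> ring

lemma aL_integrand {R : ℝ} (hR : 0 < R) (γ A : ℝ) (h : E d → ℝ) (v w : E d) :
    aL γ (v - w) ((A * h (R • w)) • gradient (fun y => A * h (R • y)) v -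
        (A * h (R • v)) • gradient (fun y => A * h (R • y)) w) =
      (A ^ 2 * R ^ (-γ) * R⁻¹) • aL γ (R • v - R • w)
        (h (R • w) • gradient h (R • v) - h (R • v) • gradient h (R • w)) := by
  have h1 : (A * h (R • w)) • gradient (fun y => A * h (R • y)) v -
        (A * h (R • v)) • gradient (fun y => A * h (R • y)) w =
      (A ^ 2 * R) • (h (R • w) • gradient h (R • v) - h (R • v) • gradient h (R • w)) := by
    simp only [gradient_const_mul_comp, smul_smul, smul_sub]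
    congr 2 <;> ring
  rw [h1, aL_smul_right, ← smul_sub, aL_smul_left hR, smul_smul]
  congr 1
  have h2 : R ^ (-γ) * R ^ γ = 1 := by
    rw [← Real.rpow_add hR]; simp
  have h3 : R⁻¹ * R = 1 := inv_mul_cancel₀ hR.ne'
  linear_combination (-(A ^ 2 * R)) * h2 - (A ^ 2 * R * (R ^ (-γ) * R ^ γ)) * h3

lemma fluxL_smul {R : ℝ} (hR : 0 < R) (γ A : ℝ) (h : E d → ℝ) (v : E d) :
    fluxL γ (fun y => A * h (R • y)) v =
      (A ^ 2 * R ^ (-γ) * R⁻¹ * (R ^ d)⁻¹) • fluxL γ h (R • v) := by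
  simp only [fluxL, aL_integrand hR]
  rw [integral_smul]
  have h1 := Measure.integral_comp_smul (volume : Measure (E d)) (fun w => aL γ (R • v - w)
        (h w • gradient h (R • v) - h (R • v) • gradient h w)) R
  rw [h1, finrank_euclideanSpace, Fintype.card_fin, abs_of_pos (by positivity), smul_smul]

lemma QL_smul {R : ℝ} (hR : 0 < R) (γ A : ℝ) (h : E d → ℝ) (v : E d) :
    QL γ (fun y => A * h (R • y)) v = A ^ 2 * R ^ (-γ) * (R ^ d)⁻¹ * QL γ h (R • v) := by
  have h1 : fluxL γ (fun y => A * h (R • y)) =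
      (A ^ 2 * R ^ (-γ) * R⁻¹ * (R ^ d)⁻¹) • (fun v => fluxL γ h (R • v)) := by
    funext v
    rw [fluxL_smul hR]
    rfl
  have h2 : fderiv ℝ (fluxL γ (fun y => A * h (R • y))) v =
      (A ^ 2 * R ^ (-γ) * (R ^ d)⁻¹) • fderiv ℝ (fluxL γ h) (R • v) := by
    have h3 : fderiv ℝ (fun v => fluxL γ h (R • v)) v = R • fderiv ℝ (fluxL γ h) (R • v) :=
      fderiv_comp_smul R
    rw [h1, fderiv_const_smul_field, Pi.smul_apply, h3, smul_smul]
    congr 1
    have : R⁻¹ * R = 1 := inv_mul_cancel₀ hR.ne'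
    linear_combination (A ^ 2 * R ^ (-γ) * (R ^ d)⁻¹) * this
  simp only [QL, h2, smul_apply, real_inner_smul_left, Finset.mul_sum]

lemma fderiv_const_smul_comp {G : Type} [NormedAddCommGroup G] [NormedSpace ℝ G] (A R : ℝ)
    (h : E d → G) (v : E d) :
    fderiv ℝ (fun y => A • h (R • y)) v = (A * R) • fderiv ℝ h (R • v) := by
  have h1 : (fun y => A • h (R • y)) = A • (fun y => h (R • y)) := rfl
  have h2 : fderiv ℝ (fun y => h (R • y)) v = R • fderiv ℝ h (R • v) := fderiv_comp_smul R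
  rw [h1, fderiv_const_smul_field, Pi.smul_apply, h2, smul_smul]

lemma norm_smul_clm {G : Type} [NormedAddCommGroup G] [NormedSpace ℝ G] {c : ℝ} (hc : 0 ≤ c)
    (L : E d →L[ℝ] G) : ‖c • L‖ = c * ‖L‖ := by
  rw [norm_smul, Real.norm_of_nonneg hc]

lemma Rap_smul {R : ℝ} (hR : 0 < R) {A : ℝ} (hA : 0 ≤ A) {h : E d → ℝ} (hh : Rap h) :
    Rap (fun y => A * h (R • y)) := by
  obtain ⟨h1, h2⟩ := hh
  refine ⟨?_, fun q => ?_⟩
  · exact contDiff_const.mul (h1.comp (contDiff_const_smul R))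
  · obtain ⟨C, hC⟩ := h2 q
    refine ⟨(1 + R⁻¹) ^ q * (A * (1 + R + R ^ 2) * C), fun v => ?_⟩
    have hf1 : fderiv ℝ (fun y => A * h (R • y)) = fun y => (A * R) • fderiv ℝ h (R • y) := by
      funext v; exact fderiv_const_mul_comp A R h v
    have hf2 : fderiv ℝ (fderiv ℝ (fun y => A * h (R • y))) v =
        (A * R * R) • fderiv ℝ (fderiv ℝ h) (R • v) := by
      rw [hf1]
      exact fderiv_const_smul_comp (A * R) R (fderiv ℝ h) v
    obtain ⟨c1, c2, c3⟩ := hC (R • v)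
    have hp := pow_le' hR q v
    have hC0 : 0 ≤ C := le_trans (by positivity) c1
    have key : ∀ c X : ℝ, 0 ≤ c → 0 ≤ X → c ≤ A * (1 + R + R ^ 2) → (1 + ‖R • v‖) ^ q * X ≤ C →
        (1 + ‖v‖) ^ q * (c * X) ≤ (1 + R⁻¹) ^ q * (A * (1 + R + R ^ 2) * C) := by
      intro c X hc hX hcA hXC
      have hcX : 0 ≤ c * X := mul_nonneg hc hX
      have hA' : 0 ≤ A * (1 + R + R ^ 2) := hc.trans hcA
      calc (1 + ‖v‖) ^ q * (c * X) ≤ ((1 + R⁻¹) ^ q * (1 + ‖R • v‖) ^ q) * (c * X) :=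
            mul_le_mul_of_nonneg_right hp hcX
        _ = (1 + R⁻¹) ^ q * (c * ((1 + ‖R • v‖) ^ q * X)) := by ring
        _ ≤ (1 + R⁻¹) ^ q * (A * (1 + R + R ^ 2) * C) := by
            refine mul_le_mul_of_nonneg_left ?_ (by positivity)
            exact mul_le_mul hcA hXC (by positivity) hA'
    have hR2 : 0 ≤ R ^ 2 := by positivity
    have e1 : A ≤ A * (1 + R + R ^ 2) := by nlinarith
    have e2 : A * R ≤ A * (1 + R + R ^ 2) := by nlinarith
    have e3 : A * R * R ≤ A * (1 + R + R ^ 2) := by nlinarith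
    refine ⟨?_, ?_, ?_⟩
    · rw [abs_mul, abs_of_nonneg hA]
      exact key A _ hA (abs_nonneg _) e1 c1
    · rw [fderiv_const_mul_comp, norm_smul, Real.norm_of_nonneg (by positivity)]
      exact key (A * R) _ (by positivity) (norm_nonneg _) e2 c2
    · have hn : ‖(A * R * R) • fderiv ℝ (fderiv ℝ h) (R • v)‖ =
          A * R * R * ‖fderiv ℝ (fderiv ℝ h) (R • v)‖ :=
        norm_smul_clm (G := E d →L[ℝ] ℝ) (by positivity) _
      have h0 : 0 ≤ ‖fderiv ℝ (fderiv ℝ h) (R • v)‖ := ContinuousLinearMap.opNorm_nonneg _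
      rw [hf2, hn]
      exact key (A * R * R) _ (by positivity) h0 e3 c3

theorem LSCAL : S_LSCAL := by
  intro d hd γ T R f hT hR hs
  refine ⟨scal_nonneg hR hs.nonneg, scal_cont hR hs.cont, scal_periodic hR hs.periodic,
    scal_decay hR hs.nonneg hs.decay, scal_diff hR hs.diff, ?_, ?_⟩
  · intro t ht x
    exact Rap_smul hR (Real.rpow_nonneg hR.le _) (hs.smooth _ (mem_Ioo_div hR ht) x)
  · intro t ht x v
    rw [scal_fderiv hR hs.diff t ht x v, hs.eqn _ (mem_Ioo_div hR ht) x (R • v)]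
    have h1 : scal γ R f t x = fun y => R ^ ((d : ℝ) + γ - 1) * f (t / R) x (R • y) := rfl
    rw [h1, QL_smul hR]
    have h2 : R ^ ((d : ℝ) + γ - 1) * (R ^ (-γ) * (R ^ d)⁻¹) = R⁻¹ := by
      rw [← Real.rpow_natCast, ← Real.rpow_neg hR.le, ← Real.rpow_add hR, ← Real.rpow_add hR,
        ← Real.rpow_neg_one]
      congr 1
      ring
    linear_combination (-(R ^ ((d : ℝ) + γ - 1) * QL γ (f (t / R) x) (R • v))) * h2

end Pool.Agent.H339.BZ
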