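import Pool.Agent.H339.BZ.Com

/-!
# SCAL: rescaling of solutions of the Boltzmann equation
-/

set_option autoImplicit false

open MeasureTheory Metric Set Filter Topology
open scoped RealInnerProductSpace ENNReal

namespace Pool.Agent.H339.BZ

open Pool.Agent.H43.BZ

variable {d : ℕ}

lemma norm_smul_sub {R : ℝ} (hR : 0 < R) (v w : E d) : ‖R • v - R • w‖ = R * ‖v - w‖ := by
  rw [← smul_sub, norm_smul, Real.norm_of_nonneg hR.le]

lemma post_smul {R : ℝ} (hR : 0 < R) (v w σ : E d) :
    post (R • v) (R • w) σ = R • post v w σ := by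
  simp only [post, norm_smul_sub hR, smul_add, smul_smul]
  ring_nf

lemma mir_smul {R : ℝ} (hR : 0 < R) (z σ : E d) : mir (R • z) σ = mir z σ := by
  simp only [mir, real_inner_smul_left, norm_smul, Real.norm_of_nonneg hR.le, smul_smul]
  congr 2
  have : R ≠ 0 := hR.ne'
  by_cases hz : ‖z‖ = 0
  · simp [hz]
  · field_simp

lemma cosa_smul {R : ℝ} (hR : 0 < R) (z σ : E d) : cosa (R • z) σ = cosa z σ := by
  simp only [cosa, real_inner_smul_left, norm_smul, Real.norm_of_nonneg hR.le]
  rw [mul_div_mul_left _ _ hR.ne']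

lemma F_smul {R : ℝ} (hR : 0 < R) (A : ℝ) (h : E d → ℝ) (v w σ : E d) :
    F (fun y => A * h (R • y)) v w σ = A ^ 2 * F h (R • v) (R • w) σ := by
  simp only [F, post_smul hR]
  ring

lemma J_smul {R : ℝ} (hR : 0 < R) (γ : ℝ) (b : ℝ → ℝ) (A : ℝ) (h : E d → ℝ) (v : E d)
    (p : E d × S d) :
    J γ b (fun y => A * h (R • y)) v p = A ^ 2 * R ^ (-γ) * J γ b h (R • v) (R • p.1, p.2) := by
  have h1 : (R * ‖v - p.1‖) ^ γ = R ^ γ * ‖v - p.1‖ ^ γ :=
    Real.mul_rpow hR.le (norm_nonneg _)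
  have h2 : R ^ (-γ) * R ^ γ = 1 := by
    rw [← Real.rpow_add hR]; simp
  simp only [J, F_smul hR, ← smul_sub, mir_smul hR, cosa_smul hR, norm_smul,
    Real.norm_of_nonneg hR.le, h1]
  linear_combination (-(A ^ 2 * (F h (R • v) (R • p.1) p.2 +
    F h (R • v) (R • p.1) (mir (v - p.1) p.2)) / 2 *
      (‖v - p.1‖ ^ γ * b (cosa (v - p.1) p.2)))) * h2

/-- the scaling of the first factor -/
noncomputable def eR (d : ℕ) (R : ℝ) (hR : 0 < R) : E d × S d ≃ᵐ E d × S d :=
  (MeasurableEquiv.smul₀ R hR.ne').prodCongr (MeasurableEquiv.refl _)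

lemma eR_apply {R : ℝ} (hR : 0 < R) (p : E d × S d) : eR d R hR p = (R • p.1, p.2) := rfl

instance sfinite_surf : SFinite (surf d) := by
  unfold surf
  infer_instance

lemma map_eR {R : ℝ} (hR : 0 < R) :
    Measure.map (eR d R hR) ((volume : Measure (E d)).prod (surf d)) =
      ENNReal.ofReal ((R ^ d)⁻¹) • ((volume : Measure (E d)).prod (surf d)) := by
  have h1 := Measure.map_prod_map (volume : Measure (E d)) (surf d)
    (f := fun w : E d => R • w) (g := (id : S d → S d)) (measurable_const_smul R) measurable_id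
  have h2 : (eR d R hR : E d × S d → E d × S d) = Prod.map (fun w : E d => R • w) id := by
    funext p; rfl
  rw [h2, ← h1, Measure.map_id, Measure.map_addHaar_smul volume hR.ne', finrank_euclideanSpace,
    Fintype.card_fin, abs_of_pos (by positivity), Measure.prod_smul_left]

lemma Q_smul {R : ℝ} (hR : 0 < R) (γ : ℝ) (b : ℝ → ℝ) (A : ℝ) (h : E d → ℝ) (v : E d) :
    Q γ b (fun y => A * h (R • y)) v = A ^ 2 * R ^ (-γ) * (R ^ d)⁻¹ * Q γ b h (R • v) := by
  simp only [Q, J_smul hR]
  rw [integral_const_mul]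
  have h1 := integral_map_equiv (μ := (volume : Measure (E d)).prod (surf d)) (eR d R hR)
    (fun p => J γ b h (R • v) p)
  rw [map_eR hR, integral_smul_measure] at h1
  simp only [eR_apply] at h1
  rw [← h1, ENNReal.toReal_ofReal (by positivity), smul_eq_mul]
  ring

lemma conv_smul {R : ℝ} (hR : 0 < R) (γ : ℝ) (b : ℝ → ℝ) (A : ℝ) (h : E d → ℝ) (v : E d)
    (hi : Integrable (J γ b h (R • v)) ((volume : Measure (E d)).prod (surf d))) :
    Integrable (J γ b (fun y => A * h (R • y)) v) ((volume : Measure (E d)).prod (surf d)) := by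
  have h0 : J γ b (fun y => A * h (R • y)) v =
      fun p => A ^ 2 * R ^ (-γ) * J γ b h (R • v) (R • p.1, p.2) := by
    funext p; exact J_smul hR γ b A h v p
  rw [h0]
  refine Integrable.const_mul ?_ _
  have h1 := (integrable_map_equiv (μ := (volume : Measure (E d)).prod (surf d)) (eR d R hR)
    (J γ b h (R • v))).1 (by
      rw [map_eR hR]
      exact hi.smul_measure ENNReal.ofReal_ne_top)
  exact h1

theorem SCAL : S_SCAL := by
  intro d hd γ b hb T R f hT hR hs
  refine ⟨scal_nonneg hR hs.nonneg, scal_cont hR hs.cont, scal_periodic hR hs.periodic,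
    scal_decay hR hs.nonneg hs.decay, scal_diff hR hs.diff, ?_, ?_⟩
  · intro t ht x v
    exact conv_smul hR γ b _ (f (t / R) x) v (hs.conv _ (mem_Ioo_div hR ht) x (R • v))
  · intro t ht x v
    rw [scal_fderiv hR hs.diff t ht x v, hs.eqn _ (mem_Ioo_div hR ht) x (R • v)]
    have h1 : scal γ R f t x = fun y => R ^ ((d : ℝ) + γ - 1) * f (t / R) x (R • y) := rfl
    rw [h1, Q_smul hR]
    have h2 : R ^ ((d : ℝ) + γ - 1) * (R ^ (-γ) * (R ^ d)⁻¹) = R⁻¹ := by
      rw [← Real.rpow_natCast, ← Real.rpow_neg hR.le, ← Real.rpow_add hR, ← Real.rpow_add hR,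
        ← Real.rpow_neg_one]
      congr 1
      ring
    linear_combination (-(R ^ ((d : ℝ) + γ - 1) * Q γ b (f (t / R) x) (R • v))) * h2

end Pool.Agent.H339.BZ
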